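import Pool.Agent.Helper10.Fam.Stmts

set_option autoImplicit false

/-! # LSTB: the boolean tests -/

namespace Pool.Agent.Helper10.Fam

theorem lstb_beqL (a : List ℕ) : ∀ b : List ℕ, beqL a b = true ↔ a = b := by
  induction a with
  | nil => intro b; cases b <;> simp [beqL]
  | cons x s ih =>
    intro b
    cases b with
    | nil => simp [beqL]
    | cons y t =>
      simp only [beqL, Bool.and_eq_true, Nat.beq_eq, ih t, List.cons.injEq]

theorem lstb_memL (w : List ℕ) (W : List (List ℕ)) : memL w W = true ↔ w ∈ W := by
  induction W with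
  | nil => simp [memL]
  | cons v t ih =>
    simp only [memL, Bool.or_eq_true, lstb_beqL, ih, List.mem_cons]

theorem lstb_nodupL (W : List (List ℕ)) : nodupL W = true ↔ W.Nodup := by
  induction W with
  | nil => simp [nodupL]
  | cons v t ih =>
    have h := lstb_memL v t
    simp only [nodupL, Bool.and_eq_true, ih, List.nodup_cons, Bool.not_eq_true']
    constructor
    · rintro ⟨h1, h2⟩
      refine ⟨fun h3 => ?_, h2⟩
      rw [h.2 h3] at h1
      exact Bool.noConfusion h1
    · rintro ⟨h1, h2⟩
      refine ⟨?_, h2⟩
      cases hb : memL v t with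
      | false => rfl
      | true => exact absurd (h.1 hb) h1

theorem lstb_fn_nil (i : ℕ) : fn [] i = 0 := by simp [fn]

theorem lstb_fn_zero (a : ℕ) (s : List ℕ) : fn (a :: s) 0 = a := by simp [fn]

theorem lstb_fn_succ (a : ℕ) (s : List ℕ) (i : ℕ) : fn (a :: s) (i + 1) = fn s i := by
  simp [fn]

theorem lstb_comb (al be : ℕ) (v : List ℕ) : ∀ a b : List ℕ, comb al be v a b = true →
    v.length = a.length ∧ v.length = b.length ∧ ∀ i, fn v i = al * fn a i + be * fn b i := by
  induction v with
  | nil =>
    intro a b h
    cases a with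
    | nil =>
      cases b with
      | nil => exact ⟨rfl, rfl, fun i => by simp [lstb_fn_nil]⟩
      | cons y t => simp [comb] at h
    | cons x s => cases b <;> simp [comb] at h
  | cons z u ih =>
    intro a b h
    cases a with
    | nil => cases b <;> simp [comb] at h
    | cons x s =>
      cases b with
      | nil => simp [comb] at h
      | cons y t =>
        simp only [comb, Bool.and_eq_true, Nat.beq_eq] at h
        obtain ⟨h1, h2⟩ := h
        obtain ⟨e1, e2, e3⟩ := ih s t h2
        refine ⟨by simp [e1], by simp [e2], ?_⟩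
        intro i
        cases i with
        | zero => rw [lstb_fn_zero, lstb_fn_zero, lstb_fn_zero, h1]; push_cast; ring
        | succ i => rw [lstb_fn_succ, lstb_fn_succ, lstb_fn_succ]; exact e3 i

theorem lstb_smulEq (k : ℕ) (v : List ℕ) : ∀ a : List ℕ, smulEq k v a = true →
    ∀ x, dx v x = k * dx a x := by
  induction v with
  | nil =>
    intro a h x
    cases a with
    | nil => simp [dx]
    | cons y t => simp [smulEq] at h
  | cons z u ih =>
    intro a h x
    cases a with
    | nil => simp [smulEq] at h
    | cons y t =>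
      simp only [smulEq, Bool.and_eq_true, Nat.beq_eq] at h
      obtain ⟨h1, h2⟩ := h
      simp only [dx]
      rw [ih t h2, h1]
      push_cast
      ring

theorem lstb_leK (k : ℕ) (a : List ℕ) : ∀ b : List ℕ, leK k a b = true →
    ∀ x : ℕ → ℝ, (∀ i, 0 ≤ x i) → dx a x ≤ k * dx b x := by
  induction a with
  | nil =>
    intro b h x hx
    cases b with
    | nil => simp [dx]
    | cons y t => simp [leK] at h
  | cons z u ih =>
    intro b h x hx
    cases b with
    | nil => simp [leK] at h
    | cons y t =>
      simp only [leK, Bool.and_eq_true, Nat.ble_eq] at h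
      obtain ⟨h1, h2⟩ := h
      simp only [dx]
      have h3 := ih t h2 (fun i => x (i + 1)) (fun i => hx (i + 1))
      have h4 : ((z : ℕ) : ℝ) ≤ (k : ℝ) * (y : ℝ) := by exact_mod_cast h1
      have h5 := mul_le_mul_of_nonneg_right h4 (hx 0)
      nlinarith [h3, h5]

theorem lstb_isUnit' (N : ℕ) : ∀ v : List ℕ, isUnit.isUnit' N v = true →
    v.length = N ∧ ∀ i, fn v i = 0 := by
  induction N with
  | zero =>
    intro v h
    cases v with
    | nil => exact ⟨rfl, lstb_fn_nil⟩
    | cons a s => simp [isUnit.isUnit'] at h
  | succ N ih =>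
    intro v h
    cases v with
    | nil => simp [isUnit.isUnit'] at h
    | cons a s =>
      simp only [isUnit.isUnit', Bool.and_eq_true, Nat.beq_eq] at h
      obtain ⟨h1, h2⟩ := h
      obtain ⟨e1, e2⟩ := ih s h2
      refine ⟨by simp [e1], ?_⟩
      intro i
      cases i with
      | zero => rw [lstb_fn_zero, h1]; simp
      | succ i => rw [lstb_fn_succ]; exact e2 i

theorem lstb_isUnit (N : ℕ) : ∀ (k : ℕ) (v : List ℕ), k < N → isUnit N k v = true →
    v.length = N ∧ 0 < fn v k ∧ ∀ i, i ≠ k → fn v i = 0 := by
  induction N with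
  | zero =>
    intro k v hk
    exact absurd hk (Nat.not_lt_zero k)
  | succ N ih =>
    intro k v hk h
    cases v with
    | nil => cases k <;> simp [isUnit] at h
    | cons a s =>
      cases k with
      | zero =>
        simp only [isUnit, Bool.and_eq_true, Nat.ble_eq] at h
        obtain ⟨h1, h2⟩ := h
        obtain ⟨e1, e2⟩ := lstb_isUnit' N s h2
        refine ⟨by simp [e1], ?_, ?_⟩
        · rw [lstb_fn_zero]
          exact_mod_cast h1
        · intro i hi
          cases i with
          | zero => exact absurd rfl hi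
          | succ i => rw [lstb_fn_succ]; exact e2 i
      | succ k =>
        simp only [isUnit, Bool.and_eq_true, Nat.beq_eq] at h
        obtain ⟨h1, h2⟩ := h
        obtain ⟨e1, e2, e3⟩ := ih k s (Nat.lt_of_succ_lt_succ hk) h2
        refine ⟨by simp [e1], ?_, ?_⟩
        · rw [lstb_fn_succ]
          exact e2
        · intro i hi
          cases i with
          | zero => rw [lstb_fn_zero, h1]; simp
          | succ i => rw [lstb_fn_succ]; exact e3 i (fun h => hi (by rw [h]))

theorem lstb_initOK (N : ℕ) : ∀ (L : List Vr) (k : ℕ), initOK N k L = true → k + L.length = N := by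
  intro L
  induction L with
  | nil =>
    intro k hk
    have hkN : k = N := Nat.eq_of_beq_eq_true hk
    simpa using hkN
  | cons v L ih =>
    intro k hk
    have hk' : (isUnit N k v.v && initOK N (k + 1) L) = true := hk
    rw [Bool.and_eq_true] at hk'
    have := ih (k + 1) hk'.2
    simp only [List.length_cons]
    omega

/-- the proof of INIT by helper57 with the corrected form of `isUnit`; no hypothesis is needed -/
theorem lstb_init (N : ℕ) : ∀ (L : List Vr) (k : ℕ), initOK N k L = true →
    ∀ x : ℕ → ℝ, (∀ i, 0 ≤ x i) → (∀ i, i < k → x i = 0) → (∀ i, N ≤ i → x i = 0) →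
    InCone L x := by
  intro L
  induction L with
  | nil =>
    intro k hk x _ hx1 hx2
    have hkN : k = N := Nat.eq_of_beq_eq_true hk
    apply InCone.nil
    intro i
    rcases lt_or_ge i k with h | h
    · exact hx1 i h
    · exact hx2 i (hkN ▸ h)
  | cons v L ih =>
    intro k hk x hx0 hx1 hx2
    have hlen := lstb_initOK N (v :: L) k hk
    have hk' : (isUnit N k v.v && initOK N (k + 1) L) = true := hk
    rw [Bool.and_eq_true] at hk'
    obtain ⟨-, hpos, hz⟩ := lstb_isUnit N k v.v (by rw [List.length_cons] at hlen; omega) hk'.1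
    refine InCone.cons v L (x k / fn v.v k) x (fun i => if i = k then 0 else x i)
      (div_nonneg (hx0 k) hpos.le) ?_ ?_
    · apply ih (k + 1) hk'.2
      · intro i
        show 0 ≤ (if i = k then (0 : ℝ) else x i)
        split_ifs
        · exact le_refl _
        · exact hx0 i
      · intro i hi
        show (if i = k then (0 : ℝ) else x i) = 0
        split_ifs with h
        · rfl
        · exact hx1 i (by omega)
      · intro i hi
        show (if i = k then (0 : ℝ) else x i) = 0
        split_ifs with h
        · rfl
        · exact hx2 i hi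
    · intro i
      show x i = x k / fn v.v k * fn v.v i + (if i = k then (0 : ℝ) else x i)
      by_cases h : i = k
      · subst h
        rw [if_pos rfl, div_mul_cancel₀ _ hpos.ne', add_zero]
      · rw [if_neg h, hz i h, mul_zero, zero_add]

/-- INIT, unconditional -/
theorem lstb_st_INIT : ST_INIT := by
  intro N L hL x hx0 hx2
  exact lstb_init N L 0 hL x hx0 (fun i hi => absurd hi (Nat.not_lt_zero i)) hx2

/-- `ST_LSTB` with the corrected field `isUnit` (the original form is false for `N ≤ k`) -/
structure ST_LSTB2 : Prop where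
  beqL : ∀ a b : List ℕ, beqL a b = true ↔ a = b
  memL : ∀ (w : List ℕ) (W : List (List ℕ)), memL w W = true ↔ w ∈ W
  nodupL : ∀ W : List (List ℕ), nodupL W = true ↔ W.Nodup
  comb : ∀ (al be : ℕ) (v a b : List ℕ), comb al be v a b = true →
    v.length = a.length ∧ v.length = b.length ∧ ∀ i, fn v i = al * fn a i + be * fn b i
  smulEq : ∀ (k : ℕ) (v a : List ℕ), smulEq k v a = true → ∀ x, dx v x = k * dx a x
  leK : ∀ (k : ℕ) (a b : List ℕ), leK k a b = true →
    ∀ x : ℕ → ℝ, (∀ i, 0 ≤ x i) → dx a x ≤ k * dx b x
  isUnit : ∀ (N k : ℕ) (v : List ℕ), k < N → isUnit N k v = true →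
    v.length = N ∧ 0 < fn v k ∧ ∀ i, i ≠ k → fn v i = 0

theorem st_LSTB2 : ST_LSTB2 where
  beqL := lstb_beqL
  memL := lstb_memL
  nodupL := lstb_nodupL
  comb := lstb_comb
  smulEq := lstb_smulEq
  leK := lstb_leK
  isUnit := lstb_isUnit

end Pool.Agent.Helper10.Fam
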